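import Pool.Agent.Q1.SL.NFA

set_option autoImplicit false

/-!
# One exceptional set for entire curves and for families of points of bounded complexity

Let `V` be an integral affine variety over a number field `K`, given by a prime ideal `I` of
`K[x_1, ..., x_n]`. The following are equivalent:

(1) over no extension field `L` of `K` there is a nonconstant curve `p(t) / t ^ m`, `t ≠ 0`, on `V`
through a generic point of `V` (`V` is not covered by images of the punctured line);

(2) for every `d` there is ONE proper closed subset `V ∩ {G = 0}` of `V` which contains all
nonconstant Laurent curves of degree at most `d` on `V` over all number fields `L ⊇ K`;

(3) for all `s`, `r`, `e` there is ONE proper closed subset `V ∩ {G = 0}` of `V`, defined over `K`,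
which contains, for all embeddings `σ` of `K` in `ℂ`, all nonconstant entire curves on `V_σ` (and all
nonconstant curves on domains of the plane) given by `s` iterated linear differential equations with
matrices of size `r` and polynomials of degree at most `e`;

(4) for all `s`, `r`, `e` there are ONE proper closed subset `V ∩ {G = 0}` of `V` and ONE number `B`
such that all families of points of `V(L)`, for all fields `L ⊇ K` embeddable in `ℂ` (for instance
for all number fields and all families of integral points), indexed by an arbitrary group and given
by `s` iterated recurrences with matrices of size `r` and polynomials of degree at most `e`, contain
at most `B` points outside of `G = 0`;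

(5) for every `d` there is ONE proper closed subset `V ∩ {G = 0}` of `V` such that all sequences
`x : ℤ → V(L)`, for all number fields `L ⊇ K`, given by one recurrence of size `1` and polynomials of
degree at most `d`, have only finitely many values outside of `G = 0`.

So for curves and points of bounded complexity the two sides of the conjecture of Bombieri, Lang and
Vojta are equivalent also in the form with an exceptional set which has to be found.
-/

namespace Pool.Agent.Results.MP_e97a4d_nt.StrongEquivalence

open MvPolynomial Pool.Agent.Q1.SL

theorem result {K : Type} [Field K] [NumberField K] {n : ℕ}
    (I : Ideal (MvPolynomial (Fin n) K)) (hprime : I.IsPrime) :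
    List.TFAE [¬ GmUniruled I, LauDegNF I, OdeDegS I, RecDeg I, SeqDeg I] :=
  nf_tfae hprime

end Pool.Agent.Results.MP_e97a4d_nt.StrongEquivalence
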