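import Pool.Agent.Q1.SL.AffUni
import Pool.Agent.Y377.ST.Conv

set_option autoImplicit false

/-!
# The Bombieri-Lang-Vojta equivalence: uniform bounds for iterated recurrences

Let `V` be an affine variety over a number field `K`, the zeros in affine `n`-space of finitely many
polynomials `F` with coefficients in `𝓞 K`, and `V'` the closed subset of `V` given by `G`.

We consider families of points `x(h)` of `V(L)`, where `L ⊇ K` is any field which can be embedded
in `ℂ` and `h` runs through an arbitrary group `H`, with coordinates given by iterated recurrences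
(`IterVec s r e x`): there are invertible matrices `X_1(h), ..., X_s(h)` of size `r` such that, for
all `g` in `H`, the entries of `X_l(g h) X_l(h)⁻¹` are, for all `h`, the values of polynomials
(depending on `g`) of degree at most `e` in each variable at the entries of `X_i(h)`, `X_i(h)⁻¹`,
`i < l`, and the coordinates of `x(h)` are values of such polynomials at the entries of all these
matrices.

The following are equivalent:

* (`IterCurvesIn`) every nonconstant entire curve in `V` with coordinates given by iterated linear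
  differential equations (the smallest set of meromorphic functions on the plane which contains the
  constants and is closed under sums, products and meromorphic solutions of systems `y' = A y` with
  coefficients in the set) lies in `V'`;
* (`GmCurvesIn`) every nonconstant map from the punctured line to `V` lies in `V'`;
* (`UniformOutA`) for all `s`, `r`, `e` there is ONE number `B` such that for ALL fields `L ⊇ K`
  embeddable in `ℂ`, all groups `H` and all families of this kind of points of `V(L)`, at most `B`
  of the points of the family are outside of `V'`.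

Both conditions of the Bombieri-Lang-Vojta conjecture, (i) on entire curves and (ii) on
`S`-integral points, imply these.
-/

namespace Pool.Agent.Results.MP_e97a4d_nt.UniformIteratedAffine

open MvPolynomial Pool.Agent.W235.RM Pool.Agent.TH717.GO Pool.Agent.Y377.AO Pool.Agent.Y377.IR
open Pool.Agent.H159R3.Exp (FinitelyManyIntegral ExpCurvesIn)
open Pool.Agent.Y377.ST Pool.Agent.Q1.SL
open scoped NumberField

variable {K : Type} [Field K] {ι κ : Type} {n : ℕ}

theorem iterVec_comp {L H : Type} [Field L] [Group H] {m m' s r e : ℕ} {x : H → Fin m → L}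
    (hx : IterVec s r e x) (f : Fin m' → Fin m) : IterVec s r e fun h j => x h (f j) := by
  obtain ⟨X, Y, h1, h2⟩ := hx
  exact ⟨X, Y, h1, fun j => h2 (f j)⟩

theorem gm_of_uniform [NumberField K] [Finite ι] (σ : K →+* ℂ)
    (F : ι → MvPolynomial (Fin n) (𝓞 K)) (G : κ → MvPolynomial (Fin n) (𝓞 K))
    (h : UniformOutA F G) : GmCurvesIn σ F G := by
  by_contra h2
  obtain ⟨r, L, iF, iN, iA, ρ, M, v, h3, h4⟩ := conv_hasLaurent F G
    (hasLaurent_of_exp F G σ (not_exp_of_not_gm σ F G h2))
  let M' : Matrix (Fin (n + 1)) (Fin r) L := Fin.cons 0 M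
  have hM : ∀ g, (fun j : Fin n => orb M' ρ v g j.succ) =
      M.mulVec ((ρ g : Matrix (Fin r) (Fin r) L).mulVec v) := by
    intro g
    funext j
    rfl
  obtain ⟨B, hB⟩ := h 1 r 1
  have τ : L →+* ℂ := (IsAlgClosed.lift : L →ₐ[ℚ] ℂ).toRingHom
  have h5 := hB L τ (Multiplicative ℤ) (fun g j => orb M' ρ v g (Fin.succ j))
    (iterVec_comp (iterVec_orb M' ρ v) Fin.succ) (fun g i => by
      have h1 := h3 g _ ⟨i, rfl⟩
      rw [aeval_mapS] at h1
      rw [hM]
      exact h1)
  apply h4
  refine Set.Finite.subset (Set.finite_of_encard_le_coe h5) ?_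
  rintro x ⟨⟨g, rfl⟩, _, ⟨i, rfl⟩, hne⟩
  refine ⟨⟨g, hM g⟩, fun h0 => hne ?_⟩
  rw [aeval_mapS]
  exact h0 i

theorem result {K : Type} [Field K] [NumberField K] (σ : K →+* ℂ) {ι κ : Type} [Finite ι] {n : ℕ}
    (F : ι → MvPolynomial (Fin n) (𝓞 K)) (G : κ → MvPolynomial (Fin n) (𝓞 K)) :
    List.TFAE [IterCurvesIn σ F G, GmCurvesIn σ F G, UniformOutA F G] ∧
    (EntireCurvesIn σ F G → UniformOutA F G) ∧
    (FinitelyManyIntegral F G → UniformOutA F G) := by
  have h0 := tfae σ F G
  have hgm : GmCurvesIn σ F G → ∀ σ' : K →+* ℂ, GmCurvesIn σ' F G := fun h σ' =>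
    ((tfae σ' F G).out 1 5 : GmCurvesIn σ' F G ↔ RecurrenceFinite F G).2
      ((h0.out 1 5 : GmCurvesIn σ F G ↔ RecurrenceFinite F G).1 h)
  have hmain : List.TFAE [IterCurvesIn σ F G, GmCurvesIn σ F G, UniformOutA F G] := by
    tfae_have 1 → 2 := gm_of_iterCurvesIn
    tfae_have 2 → 1 := iterCurvesIn_of_gm
    tfae_have 2 → 3 := fun h => uniformOutA_of (iteratedFinite_of_gm (hgm h))
    tfae_have 3 → 2 := gm_of_uniform σ F G
    tfae_finish
  have h23 : GmCurvesIn σ F G ↔ UniformOutA F G := hmain.out 1 2
  refine ⟨hmain, fun h => h23.1 ?_, fun h => h23.1 ?_⟩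
  · exact (h0.out 0 1 : ExpCurvesIn σ F G ↔ GmCurvesIn σ F G).1 (exp_of_entire σ F G h)
  · have h6 : RecurrenceFinite F G := rec_of_integral F G h
    exact (h0.out 5 1 : RecurrenceFinite F G ↔ GmCurvesIn σ F G).1 h6

end Pool.Agent.Results.MP_e97a4d_nt.UniformIteratedAffine
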