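import Mathlib
import Pool.Agent.Y215.AF.Main

set_option autoImplicit false

/-!
# The Bombieri-Lang-Vojta equivalence for points which are sums of `S`-units

Let `V` be an affine variety over a number field `K`, the zeros in affine `n`-space of finitely many
polynomials `F` with coefficients in `𝓞 K`, and `V'` the closed subset of `V` given by `G`.  The
following are equivalent:

* (`ExpCurvesIn`) every entire curve of exponential type in `V` lies in `V'`;
* (`GmCurvesIn`) every nonconstant map from the punctured line to `V` lies in `V'`;
* (`HullHeights`) for every finitely generated group `Γ` of algebraic numbers there is a `C` such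
  that every point `x = ∑ u_j V_j` of `V` outside `V'`, where the `u_j` have a power in `Γ` and the
  vectors `V_j` over the algebraic numbers are arbitrary, satisfies `h(1 : x) ≤ C (1 + h(1 : V))`;
* (`HullRational`) for every number field `L` and all `Γ`, `r`, `B` only finitely many points of
  `V(L)` outside `V'` are of this form with `h(1 : V) ≤ B`;
* (`HullNear`) the points over the algebraic numbers of the form `∑ u_j s_j V_j`, with `u_j` as
  before and `h(1 : s) < ε(d, r)`, are finite in number, at most `A (1 + h(1 : V)) ^ e`;
* (`UnitSumFinite`) for all number fields `L`, all finite sets `S` of primes and all `r`, there are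
  only finitely many points of `V(L)` outside `V'` all of whose coordinates are sums of at most `r`
  `S`-units.

Both conditions of the Bombieri-Lang-Vojta conjecture, (i) on entire curves and (ii) on
`S`-integral points, imply these.
-/

namespace Pool.Agent.Results.MP_e97a4d_nt.UnitSumEquivalence

open MvPolynomial Pool.Agent.W235.RM Pool.Agent.Y215.AF
open Pool.Agent.H159R3.Exp (ExpCurvesIn FinitelyManyIntegral)
open scoped NumberField

theorem result {K : Type} [Field K] [NumberField K] (σ : K →+* ℂ) {ι κ : Type} [Finite ι] {n : ℕ}
    (F : ι → MvPolynomial (Fin n) (𝓞 K)) (G : κ → MvPolynomial (Fin n) (𝓞 K)) :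
    List.TFAE [ExpCurvesIn σ F G, GmCurvesIn σ F G, HullHeights F G, HullRational F G,
      HullNear eps F G, UnitSumFinite F G] ∧
    (EntireCurvesIn σ F G → UnitSumFinite F G) ∧
    (FinitelyManyIntegral F G → UnitSumFinite F G) := by
  have h := tfaeU σ F G
  have h0 := tfae σ F G
  have h15 : ExpCurvesIn σ F G ↔ UnitSumFinite F G := h.out 0 5
  have h05 : ExpCurvesIn σ F G ↔ RecurrenceFinite F G := h0.out 0 5
  exact ⟨h, fun hE => h15.1 (exp_of_entire σ F G hE),
    fun hI => h15.1 (h05.2 (rec_of_integral F G hI))⟩

end Pool.Agent.Results.MP_e97a4d_nt.UnitSumEquivalence
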