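import Mathlib
import Pool.Agent.Y215.AF.LogHull
import Pool.Agent.Y215.AF.LogConv

set_option autoImplicit false

/-!
# Sums of `S`-units on affine varieties: an exceptional set exists if and only if the variety is not
dominated by punctured lines

Let `X` be an integral affine variety over a number field `k` (closed in affine `n`-space, given by
polynomials `F` of degree at most `d`).

(1) Suppose that `X` is not dominated by punctured lines: there is no family of nonconstant maps
`G_m → X` whose images cover a dense subset of `X` (for example `X` of log general type, of positive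
dimension). Then for every `r` there is a proper closed subset `Z = X ∩ {G = 0}`, defined over `k`,
such that for every finitely generated group `Γ` of algebraic numbers:

* (`HeightsOff`) all points `x = ∑ u_j V_j` (`r` terms) of `X` outside `Z`, with `u_j` with a power
  in `Γ` and arbitrary vectors `V_j` of algebraic numbers, satisfy `h(1 : x) ≤ C (1 + h(1 : V))`;
* (`RationalOff`) for each number field `L` and all `B`, the points of `X(L)` outside `Z` of this
  form with `h(1 : V) ≤ B` are finite in number;
* (`NearOff`) the points over the algebraic numbers outside `Z` of the form `∑ u_j s_j V_j` with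
  `h(1 : s) < ε(d, r)` are finite in number, at most `A (1 + h(1 : V)) ^ e`;
* (`UnitSumOff`) for all number fields `L ⊇ k` and finite sets `S` of primes, only finitely many
  points of `X(L)` outside `Z` have coordinates which are sums of at most `r` `S`-units.

The set `Z` depends only on `X` and `r`, not on `L`, `S`, `Γ`.

(2) If `X` is dominated by punctured lines, there is an `r` such that for every proper closed subset
`Z = X ∩ {G = 0}` there are a number field `L ⊇ k` and a finite set `S` of primes such that
infinitely many points of `X(L)` outside `Z` have coordinates which are sums of at most `r` `S`-units.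
-/

namespace Pool.Agent.Results.MP_e97a4d_nt.UnitSumExceptionalSet

open MvPolynomial Pool.Agent.W235.RM Pool.Agent.Y215.AF

theorem curCond_mul {k : Type} [Field k] {N n : ℕ} (F : Fin N → MvPolynomial (Fin n) k) (d : ℕ)
    (G G' : MvPolynomial (Fin n) k) (r : ℕ) (h : CurCond F d G r ∨ CurCond F d G' r) :
    CurCond F d (G * G') r := by
  intro L _ _ c l h1 h2
  rw [map_mul, mul_eq_zero]
  rcases h with h | h
  · exact Or.inl (h L c l h1 h2)
  · exact Or.inr (h L c l h1 h2)

theorem result (k : Type) [Field k] [NumberField k] (n N d : ℕ) (hd1 : 1 ≤ d)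
    (F : Fin N → MvPolynomial (Fin n) k) (hd : ∀ i, (F i).totalDegree ≤ d)
    (hprime : (Ideal.span (Set.range F)).IsPrime) :
    (¬ GmUniruled (Ideal.span (Set.range F)) → ∀ r : ℕ,
      ∃ G : MvPolynomial (Fin n) k, G ∉ Ideal.span (Set.range F) ∧ HeightsOff F G r ∧
        RationalOff F G r ∧ NearOff (eps d r) F G r ∧ UnitSumOff F G r) ∧
    (GmUniruled (Ideal.span (Set.range F)) →
      ∃ r : ℕ, ∀ G : MvPolynomial (Fin n) k, G ∉ Ideal.span (Set.range F) →
        ¬ UnitSumOff F G r) := by
  refine ⟨fun hnu r => ?_, fun hu => conv_gm F hu⟩
  have hex : ∀ r : ℕ, ∃ G : MvPolynomial (Fin n) k, G ∉ Ideal.span (Set.range F) ∧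
      CurCond F d G r := by
    intro r
    obtain ⟨G, h1, h2⟩ := exists_hyperA (Set.range F) hprime hnu d hd1 (by
      rintro _ ⟨i, rfl⟩
      exact hd i) r
    refine ⟨G, h1, fun L _ _ c l hz hc => h2 L c l ?_ hc⟩
    rintro _ ⟨i, rfl⟩
    exact hz i
  obtain ⟨G1, hG1, hc1⟩ := hex r
  obtain ⟨G2, hG2, hc2⟩ := hex (n * r)
  have hc : CurCond F d (G1 * G2) r := curCond_mul F d G1 G2 r (Or.inl hc1)
  have hc' : CurCond F d (G1 * G2) (n * r) := curCond_mul F d G1 G2 (n * r) (Or.inr hc2)
  refine ⟨G1 * G2, fun h => ?_, heightsOff F d hd _ r hc,
    rationalOff F _ r (heightsOff F d hd _ r hc), nearOff_main F d hd1 hd _ r hc,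
    unitSumOff F _ r (rationalOff F _ _ (heightsOff F d hd _ _ hc'))⟩
  rcases hprime.mem_or_mem h with h | h
  · exact hG1 h
  · exact hG2 h

end Pool.Agent.Results.MP_e97a4d_nt.UnitSumExceptionalSet
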